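import Pool.Agent.Helper87_UT.Stmts

/-!
# UT, module COI: the simulation has the limit distribution
-/

set_option autoImplicit false

namespace Pool.Agent.UT.H94

open Finset
open Pool.Agent.Helper76_Bisect

theorem lt_aux {a n b s : ℕ} (ha : a < n) (hb : b < s) : a * s + b < n * s := by
  have h : (a + 1) * s ≤ n * s := Nat.mul_le_mul_right _ ha
  rw [add_mul, one_mul] at h
  omega

theorem inj_aux {a b a' b' s : ℕ} (hb : b < s) (hb' : b' < s) (h : a * s + b = a' * s + b') :
    a = a' ∧ b = b' := by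
  rcases lt_trichotomy a a' with h1 | h1 | h1
  · have h2 : (a + 1) * s ≤ a' * s := Nat.mul_le_mul_right _ h1
    rw [add_mul, one_mul] at h2
    omega
  · subst h1
    exact ⟨rfl, by omega⟩
  · have h2 : (a' + 1) * s ≤ a * s := Nat.mul_le_mul_right _ h1
    rw [add_mul, one_mul] at h2
    omega

/-- A part of a word. -/
theorem drop_take_ofFn {p : ℕ} (r : Fin p → Bool) (k s : ℕ) (h : k + s ≤ p) :
    ((List.ofFn r).drop k).take s = List.ofFn fun j : Fin s => r ⟨k + j, by omega⟩ := by
  apply List.ext_getElem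
  · simp
    omega
  · intro i h1 h2
    simp

/-- the indices of the coins which are used -/
abbrev Idx (q s t : ℕ) : Type := Fin q ⊕ ((Fin q × Fin s) ⊕ (Fin q × Fin q × Fin t))

/-- the position of a coin -/
def pos {q s t : ℕ} : Idx q s t → ℕ
  | .inl i => i.val
  | .inr (.inl x) => q + x.1.val * s + x.2.val
  | .inr (.inr x) => q + q * s + (x.1.val * q + x.2.1.val) * t + x.2.2.val

theorem pos_lt {q s t : ℕ} (x : Idx q s t) : pos x < q + q * s + q * q * t := by
  rcases x with i | ⟨i, j⟩ | ⟨i, j, m⟩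
  · have := i.isLt
    simp only [pos]
    omega
  · have := lt_aux i.isLt j.isLt
    simp only [pos]
    omega
  · have h1 := lt_aux i.isLt j.isLt
    have := lt_aux h1 m.isLt
    simp only [pos]
    omega

theorem pos_inj {q s t : ℕ} : Function.Injective (pos : Idx q s t → ℕ) := by
  rintro (i | ⟨i, j⟩ | ⟨i, j, m⟩) (i' | ⟨i', j'⟩ | ⟨i', j', m'⟩) h
  · simp only [pos] at h
    rw [Fin.ext h]
  · have := i.isLt
    simp only [pos] at h
    omega
  · have := i.isLt
    simp only [pos] at h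
    omega
  · have := i'.isLt
    simp only [pos] at h
    omega
  · simp only [pos] at h
    have h1 : i.val * s + j.val = i'.val * s + j'.val := by omega
    obtain ⟨h2, h3⟩ := inj_aux j.isLt j'.isLt h1
    rw [Fin.ext h2, Fin.ext h3]
  · have := lt_aux i.isLt j.isLt
    simp only [pos] at h
    omega
  · have := i'.isLt
    simp only [pos] at h
    omega
  · have := lt_aux i'.isLt j'.isLt
    simp only [pos] at h
    omega
  · simp only [pos] at h
    have h1 : (i.val * q + j.val) * t + m.val = (i'.val * q + j'.val) * t + m'.val := by omega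
    obtain ⟨h2, h3⟩ := inj_aux m.isLt m'.isLt h1
    obtain ⟨h4, h5⟩ := inj_aux j.isLt j'.isLt h2
    rw [Fin.ext h3, Fin.ext h4, Fin.ext h5]

/-- the three parts of the coins -/
def split (q s t : ℕ) : (Idx q s t → Bool) ≃
    (Fin q → Bool) × (Fin q → Fin s → Bool) × (Fin q → Fin q → Fin t → Bool) where
  toFun d := (fun i => d (.inl i), fun i j => d (.inr (.inl (i, j))),
    fun i j m => d (.inr (.inr (i, j, m))))
  invFun z := Sum.elim z.1 (Sum.elim (fun x => z.2.1 x.1 x.2) (fun x => z.2.2 x.1 x.2.1 x.2.2))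
  left_inv d := by
    funext x
    rcases x with i | ⟨i, j⟩ | ⟨i, j, m⟩ <;> rfl
  right_inv z := rfl

/-- the toggled pairs -/
def togG {q t : ℕ} (c : Fin q → Fin q → Fin t → Bool) : SimpleGraph (Fin q) where
  Adj i j := i ≠ j ∧ ∀ m, c (min i j) (max i j) m = true
  symm := ⟨by
    rintro i j ⟨h1, h2⟩
    exact ⟨h1.symm, by rwa [min_comm, max_comm]⟩⟩
  loopless := ⟨by rintro i ⟨h, _⟩; exact h rfl⟩

theorem togG_lt {q t : ℕ} (c : Fin q → Fin q → Fin t → Bool) (i j : Fin q) (h : i < j) :
    (togG c).Adj i j ↔ ∀ m, c i j m = true := by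
  change (i ≠ j ∧ ∀ m, c (min i j) (max i j) m = true) ↔ _
  rw [min_eq_left h.le, max_eq_right h.le]
  exact ⟨fun h => h.2, fun h' => ⟨h.ne, h'⟩⟩

/-- the unit with given digits -/
def unitF (hVAL : ValStmt) (s : ℕ) (c : Fin s → Bool) : Fin (2 ^ s) :=
  ⟨val (List.ofFn c), (hVAL s).1 c⟩

theorem unitF_bij (hVAL : ValStmt) (s : ℕ) : Function.Bijective (unitF hVAL s) := by
  constructor
  · intro c c' h
    have h1 : val (List.ofFn c) = val (List.ofFn c') := congrArg Fin.val h
    obtain ⟨d, _, hd⟩ := (hVAL s).2 _ ((hVAL s).1 c')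
    rw [hd c h1, hd c' rfl]
  · intro m
    obtain ⟨d, hd, _⟩ := (hVAL s).2 m.val m.isLt
    exact ⟨d, Fin.ext hd⟩

/-- the units of all samples -/
def unitsF (hVAL : ValStmt) (q s : ℕ) (c : Fin q → Fin s → Bool) : Fin q → Fin (2 ^ s) :=
  fun i => unitF hVAL s (c i)

theorem unitsF_bij (hVAL : ValStmt) (q s : ℕ) : Function.Bijective (unitsF hVAL q s) := by
  constructor
  · intro c c' h
    funext i
    exact (unitF_bij hVAL s).1 (congrFun h i)
  · intro τ
    choose d hd using fun i => (unitF_bij hVAL s).2 (τ i)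
    exact ⟨d, funext hd⟩

open Classical in
/-- The simulated answers. -/
theorem adj_eq (hVAL : ValStmt) (I : Inst) (Γ : SimpleGraph (Fin (2 ^ I.s))) (p : ℕ)
    (hA : ∀ u v : Fin (2 ^ I.s),
      I.A.getD (u.val * 2 ^ I.s + v.val) false = true ↔ u = v ∨ Γ.Adj u v)
    (hp : I.q + I.q * I.s + I.q * I.q * I.t ≤ p) (r : Fin p → Bool) :
    I.adj (List.ofFn r) = sampleAdj (symmDiff
      (typeGraph Γ (unitsF hVAL I.q I.s fun i j => r ⟨pos (q := I.q) (s := I.s) (t := I.t)
        (.inr (.inl (i, j))), (pos_lt _).trans_le hp⟩))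
      (togG fun i j (m : Fin I.t) => r ⟨pos (q := I.q) (s := I.s) (t := I.t)
        (.inr (.inr (i, j, m))), (pos_lt _).trans_le hp⟩)) id := by
  funext i j
  by_cases hij : i < I.q ∧ j < I.q ∧ i ≠ j
  · obtain ⟨hi, hj, hne⟩ := hij
    have hunit : ∀ i (hi : i < I.q), I.unit (List.ofFn r) i =
        (unitsF hVAL I.q I.s (fun i j => r ⟨pos (q := I.q) (s := I.s) (t := I.t)
        (.inr (.inl (i, j))), (pos_lt _).trans_le hp⟩) ⟨i, hi⟩).val := by
      intro i hi
      unfold Inst.unit unitsF unitF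
      have h1 : (i + 1) * I.s ≤ I.q * I.s := Nat.mul_le_mul_right _ hi
      rw [add_mul, one_mul] at h1
      rw [drop_take_ofFn r _ _ (by omega)]
      rfl
    have hnoise : I.noise (List.ofFn r) i j = true ↔ (togG fun i j (m : Fin I.t) =>
        r ⟨pos (q := I.q) (s := I.s) (t := I.t)
        (.inr (.inr (i, j, m))), (pos_lt _).trans_le hp⟩).Adj ⟨i, hi⟩ ⟨j, hj⟩ := by
      have hlt : ∀ (i j : ℕ) (hi : i < I.q) (hj : j < I.q), i < j →
          (I.noise (List.ofFn r) i j = true ↔ (togG fun i j (m : Fin I.t) =>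
          r ⟨pos (q := I.q) (s := I.s) (t := I.t)
          (.inr (.inr (i, j, m))), (pos_lt _).trans_le hp⟩).Adj ⟨i, hi⟩ ⟨j, hj⟩) := by
        intro i j hi hj hlt
        rw [togG_lt _ _ _ (Fin.mk_lt_mk.mpr hlt)]
        unfold Inst.noise
        rw [min_eq_left hlt.le, max_eq_right hlt.le]
        have h0 := lt_aux hi hj
        have h1 : (i * I.q + j + 1) * I.t ≤ I.q * I.q * I.t := Nat.mul_le_mul_right _ h0
        rw [add_mul _ 1, one_mul] at h1
        rw [drop_take_ofFn r _ _ (by omega)]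
        simp only [List.all_eq_true, List.mem_ofFn, id]
        constructor
        · intro h m
          exact h _ ⟨m, rfl⟩
        · rintro h x ⟨m, rfl⟩
          exact h m
      rcases lt_or_gt_of_ne hne with h | h
      · exact hlt i j hi hj h
      · rw [SimpleGraph.adj_comm]
        have h1 : I.noise (List.ofFn r) i j = I.noise (List.ofFn r) j i := by
          unfold Inst.noise
          rw [min_comm, max_comm]
        rw [h1]
        exact hlt j i hj hi h
    rw [Bool.eq_iff_iff]
    unfold Inst.adj sampleAdj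
    rw [decide_eq_true (show i < I.q ∧ j < I.q ∧ i ≠ j from ⟨hi, hj, hne⟩), Bool.true_and,
      decide_eq_true_iff]
    have h2 : (∃ (hi : i < I.q) (hj : j < I.q), (symmDiff
      (typeGraph Γ (unitsF hVAL I.q I.s fun i j => r ⟨pos (q := I.q) (s := I.s) (t := I.t)
        (.inr (.inl (i, j))), (pos_lt _).trans_le hp⟩))
      (togG fun i j (m : Fin I.t) => r ⟨pos (q := I.q) (s := I.s) (t := I.t)
        (.inr (.inr (i, j, m))), (pos_lt _).trans_le hp⟩)).Adj (id ⟨i, hi⟩) (id ⟨j, hj⟩)) ↔ (symmDiff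
      (typeGraph Γ (unitsF hVAL I.q I.s fun i j => r ⟨pos (q := I.q) (s := I.s) (t := I.t)
        (.inr (.inl (i, j))), (pos_lt _).trans_le hp⟩))
      (togG fun i j (m : Fin I.t) => r ⟨pos (q := I.q) (s := I.s) (t := I.t)
        (.inr (.inr (i, j, m))), (pos_lt _).trans_le hp⟩)).Adj ⟨i, hi⟩ ⟨j, hj⟩ :=
      ⟨fun ⟨_, _, h⟩ => h, fun h => ⟨hi, hj, h⟩⟩
    rw [h2, adj_symmDiff, ← hnoise]
    have h3 : (typeGraph Γ (unitsF hVAL I.q I.s fun i j => r ⟨pos (q := I.q) (s := I.s) (t := I.t)
        (.inr (.inl (i, j))), (pos_lt _).trans_le hp⟩)).Adj ⟨i, hi⟩ ⟨j, hj⟩ ↔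
        I.A.getD (I.unit (List.ofFn r) i * 2 ^ I.s + I.unit (List.ofFn r) j) false = true := by
      rw [hunit i hi, hunit j hj, hA]
      change (_ ≠ _ ∧ _) ↔ _
      exact ⟨fun h => h.2, fun h => ⟨fun h' => hne (congrArg Fin.val h'), h⟩⟩
    rw [h3]
    cases I.A.getD (I.unit (List.ofFn r) i * 2 ^ I.s + I.unit (List.ofFn r) j) false <;>
      cases I.noise (List.ofFn r) i j <;> simp
  · have h1 : I.adj (List.ofFn r) i j = false := by
      unfold Inst.adj
      rw [decide_eq_false hij, Bool.false_and]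
    rw [h1]
    unfold sampleAdj
    symm
    rw [decide_eq_false_iff_not]
    rintro ⟨hi, hj, h⟩
    refine hij ⟨hi, hj, ?_⟩
    rintro rfl
    exact h.ne rfl

open Classical in
theorem coi (hRST : RstStmt) (hVAL : ValStmt) (hNOI : NoiStmt) : CoiStmt := by
  intro next I Γ p hA hp
  -- the predicate on the used coins
  let R : (Fin I.q → Bool) → (Fin I.q → Fin I.s → Bool) →
      (Fin I.q → Fin I.q → Fin I.t → Bool) → Prop := fun c1 c2 c3 =>
    play next I.a I.b (List.ofFn c1) (sampleAdj (symmDiff (typeGraph Γ (unitsF hVAL I.q I.s c2))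
      (togG c3)) id) I.q [] = true
  let P : (Idx I.q I.s I.t → Bool) → Prop := fun d =>
    R (split _ _ _ d).1 (split _ _ _ d).2.1 (split _ _ _ d).2.2
  let φ : Idx I.q I.s I.t → Fin p := fun x => ⟨pos x, (pos_lt x).trans_le hp⟩
  have hφ : Function.Injective φ := fun x y h => pos_inj (congrArg Fin.val h)
  have h1 : ∀ r : Fin p → Bool, I.run next (List.ofFn r) = true ↔ P fun i => r (φ i) := by
    intro r
    unfold Inst.run
    rw [adj_eq hVAL I Γ p hA hp r]
    have h2 : (List.ofFn r).take I.q = List.ofFn fun i : Fin I.q =>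
        r ⟨pos (q := I.q) (s := I.s) (t := I.t) (.inl i), (pos_lt _).trans_le hp⟩ := by
      have := drop_take_ofFn r 0 I.q (by omega)
      rw [List.drop_zero] at this
      rw [this]
      congr 1
      funext j
      congr 2
      simp [pos]
    rw [h2]
    rfl
  have h2 := hRST (Idx I.q I.s I.t) (Fin p) Bool φ P hφ
  have h3 : (univ.filter fun r : Fin p → Bool => I.run next (List.ofFn r) = true) =
      univ.filter fun r : Fin p → Bool => P fun i => r (φ i) := by
    ext r
    simp only [mem_filter, mem_univ, true_and]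
    exact h1 r
  -- the number of the used coins
  have h4 : ((univ.filter P).card : ℝ) = 2 ^ I.q * (Fintype.card (Fin I.q → Fin I.q → Fin I.t →
      Bool) * (((2 ^ I.s : ℕ) : ℝ) ^ I.q *
        limAvg Γ (1 / 2 ^ I.t) (accProb next I.q I.a I.b))) := by
    have e1 : ((univ.filter P).card : ℝ) = ∑ d : Idx I.q I.s I.t → Bool,
        if P d then (1 : ℝ) else 0 := by
      rw [Finset.sum_boole]
    have e2 : (∑ d : Idx I.q I.s I.t → Bool, if P d then (1 : ℝ) else 0) =
        ∑ z : (Fin I.q → Bool) × (Fin I.q → Fin I.s → Bool) ×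
          (Fin I.q → Fin I.q → Fin I.t → Bool), if R z.1 z.2.1 z.2.2 then (1 : ℝ) else 0 :=
      Fintype.sum_equiv (split I.q I.s I.t) _ _ fun d => rfl
    rw [e1, e2, Fintype.sum_prod_type, Finset.sum_comm]
    have e3 : ∀ z : (Fin I.q → Fin I.s → Bool) × (Fin I.q → Fin I.q → Fin I.t → Bool),
        (∑ c1 : Fin I.q → Bool, if R c1 z.1 z.2 then (1 : ℝ) else 0) =
          2 ^ I.q * accProb next I.q I.a I.b
            (symmDiff (typeGraph Γ (unitsF hVAL I.q I.s z.1)) (togG z.2)) := by
      intro z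
      unfold accProb
      rw [mul_div_cancel₀]
      · rw [Finset.sum_boole]
      · positivity
    have e4 : ∀ z : (Fin I.q → Fin I.s → Bool) × (Fin I.q → Fin I.q → Fin I.t → Bool),
        (∑ c1 : Fin I.q → Bool, if R (c1, z).1 (c1, z).2.1 (c1, z).2.2 then (1 : ℝ) else 0) =
          2 ^ I.q * accProb next I.q I.a I.b
            (symmDiff (typeGraph Γ (unitsF hVAL I.q I.s z.1)) (togG z.2)) := e3
    rw [Finset.sum_congr rfl fun z _ => e4 z, ← Finset.mul_sum, Fintype.sum_prod_type]
    congr 1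
    have e5 : ∀ c2 : Fin I.q → Fin I.s → Bool,
        (∑ c3 : Fin I.q → Fin I.q → Fin I.t → Bool, accProb next I.q I.a I.b
            (symmDiff (typeGraph Γ (unitsF hVAL I.q I.s (c2, c3).1)) (togG (c2, c3).2))) =
          Fintype.card (Fin I.q → Fin I.q → Fin I.t → Bool) *
            ∑ T : SimpleGraph (Fin I.q), toggleProb (1 / 2 ^ I.t) T *
              accProb next I.q I.a I.b
                (symmDiff (typeGraph Γ (unitsF hVAL I.q I.s c2)) T) := by
      intro c2
      have := hNOI I.q I.t (fun T => accProb next I.q I.a I.b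
                (symmDiff (typeGraph Γ (unitsF hVAL I.q I.s c2)) T)) togG togG_lt
      convert this
    rw [Finset.sum_congr rfl fun c2 _ => e5 c2, ← Finset.mul_sum]
    congr 1
    rw [Fintype.sum_bijective (unitsF hVAL I.q I.s) (unitsF_bij hVAL I.q I.s) _
      (fun τ => ∑ T : SimpleGraph (Fin I.q), toggleProb (1 / 2 ^ I.t) T *
        accProb next I.q I.a I.b (symmDiff (typeGraph Γ τ) T)) fun c2 => rfl]
    unfold limAvg
    rw [mul_div_cancel₀]
    positivity
  rw [Fintype.card_bool] at h2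
  have h5 : ((univ.filter fun r : Fin p → Bool => P fun i => r (φ i)).card : ℝ) *
      2 ^ Fintype.card (Idx I.q I.s I.t) = ((univ.filter P).card : ℝ) *
        2 ^ Fintype.card (Fin p) := by
    exact_mod_cast h2
  have h6 : (2 : ℝ) ^ Fintype.card (Idx I.q I.s I.t) =
      2 ^ I.q * (Fintype.card (Fin I.q → Fin I.q → Fin I.t → Bool) *
        ((2 ^ I.s : ℕ) : ℝ) ^ I.q) := by
    simp only [Idx, Fintype.card_sum, Fintype.card_prod, Fintype.card_fin, Fintype.card_pi,
      Fintype.card_bool, prod_const, card_univ]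
    push_cast
    rw [pow_add, pow_add]
    rw [← pow_mul, ← pow_mul, ← pow_mul]
    ring_nf
  rw [h4, h6, Fintype.card_fin] at h5
  have h7 : (0 : ℝ) < 2 ^ I.q * (Fintype.card (Fin I.q → Fin I.q → Fin I.t → Bool) *
        ((2 ^ I.s : ℕ) : ℝ) ^ I.q) := by
    rw [← h6]
    positivity
  have h8 : ((univ.filter fun r : Fin p → Bool => P fun i => r (φ i)).card : ℝ) =
      2 ^ p * limAvg Γ (1 / 2 ^ I.t) (accProb next I.q I.a I.b) := by
    apply mul_right_cancel₀ h7.ne'
    rw [h5]
    ring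
  rw [← h8]
  congr 2

end Pool.Agent.UT.H94
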