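import Pool.Agent.Helper87_UT.Stmts

/-!
# UT, module NOI: toggles made of `t` bits
-/

set_option autoImplicit false

namespace Pool.Agent.UT.H94

open Finset
open Pool.Agent.Helper76_Bisect

open Classical in
/-- The number of words with a given value. -/
theorem card_block (t : ℕ) (A : Prop) :
    ((univ.filter fun d : Fin t → Bool => A ↔ ∀ m, d m = true).card : ℝ) =
      2 ^ t * (if A then 1 / 2 ^ t else 1 - 1 / 2 ^ t) := by
  have h1 : (univ.filter fun d : Fin t → Bool => ∀ m, d m = true) = {fun _ => true} := by
    ext d
    simp only [mem_filter, mem_univ, true_and, mem_singleton]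
    exact ⟨fun h => funext h, fun h => by rw [h]; simp⟩
  have h2 : ((2 : ℝ) ^ t) ≠ 0 := by positivity
  by_cases hA : A
  · simp only [hA, true_iff, if_true]
    rw [h1]
    simp [h2]
  · simp only [hA, false_iff, if_false]
    have h3 : (univ.filter fun d : Fin t → Bool => ¬ ∀ m, d m = true).card + 1 = 2 ^ t := by
      have := Finset.card_filter_add_card_filter_not (s := (univ : Finset (Fin t → Bool)))
        (fun d : Fin t → Bool => ∀ m, d m = true)
      rw [h1, card_singleton] at this
      simp at this
      simp
      omega
    have h4 : ((univ.filter fun d : Fin t → Bool => ¬ ∀ m, d m = true).card : ℝ) + 1 = 2 ^ t := by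
      exact_mod_cast h3
    field_simp
    linarith

theorem noi : NoiStmt := by
  intro q t f e he
  classical
  have key : ∀ T : SimpleGraph (Fin q),
      ((univ.filter fun c : Fin q → Fin q → Fin t → Bool => e c = T).card : ℝ) =
        Fintype.card (Fin q → Fin q → Fin t → Bool) * toggleProb (1 / 2 ^ t) T := by
    intro T
    have h1 : (univ.filter fun c : Fin q → Fin q → Fin t → Bool => e c = T) =
        Fintype.piFinset fun i : Fin q => Fintype.piFinset fun j : Fin q =>
          if i < j then univ.filter fun d : Fin t → Bool => T.Adj i j ↔ ∀ m, d m = true
          else univ := by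
      ext c
      simp only [mem_filter, mem_univ, true_and, Fintype.mem_piFinset]
      constructor
      · rintro h i j
        split_ifs with hij
        · simp only [mem_filter, mem_univ, true_and]
          rw [← h]
          exact he c i j hij
        · exact mem_univ _
      · intro h
        ext i j
        have h2 : ∀ i j : Fin q, i < j → ((e c).Adj i j ↔ T.Adj i j) := by
          intro i j hij
          have := h i j
          rw [if_pos hij] at this
          simp only [mem_filter, mem_univ, true_and] at this
          rw [he c i j hij, this]
        rcases lt_trichotomy i j with hij | hij | hij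
        · exact h2 i j hij
        · subst hij
          simp
        · rw [(e c).adj_comm, T.adj_comm]
          exact h2 j i hij
    rw [h1, Fintype.card_piFinset]
    simp only [Fintype.card_piFinset]
    push_cast
    have h3 : ∀ i j : Fin q, (((if i < j then univ.filter fun d : Fin t → Bool =>
        T.Adj i j ↔ ∀ m, d m = true else univ).card : ℕ) : ℝ) =
        2 ^ t * (if i < j then (if T.Adj i j then 1 / 2 ^ t else 1 - 1 / 2 ^ t) else 1) := by
      intro i j
      split_ifs with h4 h5
      · rw [card_block]
        simp [h5]
      · rw [card_block]
        simp [h5]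
      · simp
    simp only [h3]
    rw [← Fintype.prod_prod_type' (f := fun i j : Fin q => (2 : ℝ) ^ t *
      (if i < j then (if T.Adj i j then 1 / 2 ^ t else 1 - 1 / 2 ^ t) else 1))]
    rw [Finset.prod_mul_distrib]
    congr 1
    · simp only [prod_const, card_univ, Fintype.card_pi, Fintype.card_bool, Fintype.card_fin,
        Fintype.card_prod]
      push_cast
      rw [← pow_mul, ← pow_mul, ← pow_mul]
    · unfold toggleProb pairs
      rw [Finset.prod_filter]
  calc ∑ c : Fin q → Fin q → Fin t → Bool, f (e c)
      = ∑ T : SimpleGraph (Fin q), ∑ c : Fin q → Fin q → Fin t → Bool with e c = T, f (e c) :=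
        (Finset.sum_fiberwise _ _ _).symm
    _ = ∑ T : SimpleGraph (Fin q),
          ((univ.filter fun c : Fin q → Fin q → Fin t → Bool => e c = T).card : ℝ) * f T := by
        refine Finset.sum_congr rfl fun T _ => ?_
        rw [Finset.sum_congr rfl (g := fun _ => f T)
          (fun c hc => by rw [(mem_filter.mp hc).2])]
        rw [Finset.sum_const, nsmul_eq_mul]
    _ = _ := by
        rw [Finset.mul_sum]
        refine Finset.sum_congr rfl fun T _ => ?_
        rw [key T, mul_assoc]

end Pool.Agent.UT.H94
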